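import Pool.Agent.H50.REV.Phase2
import Pool.Agent.H50.REV.Rev

/-!
# Machines printing algebraic irrationals reverse two work stacks in every window

The machine model is the one of the frozen statement of the problem: a machine with finitely many
stacks, started on empty stacks, one of which is the output.  A tape with one head is a pair of stacks.

Theorem.  Let `x` be irrational and algebraic (or just not a Liouville number) and `x = ∑ e i / b^(i+1)`
with integers `e i`.  Suppose that a machine prints `e 0, e 1, …` so that `n` of them are printed after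
`T n` steps, where `T` is arbitrary.  Then for every `B` there is `A` such that for every `t` there are two
different work stacks such that, on the time interval `[t, T (A (t + 1))]`, neither of the two heights is
nondecreasing up to `B` or nonincreasing up to `B`.  In real time (`T n ≤ c (n + 1)`) it follows that for
all large `n` there are two different work stacks each of which reverses its direction at least `ε log n`
times in the first `n` steps.

So the conjecture holds for machines all of whose work stacks but one make `o(log n)` reversals: one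
work stack (which may depend on the time window) is a pushdown store without any restriction.

Sketch.  Let `[t, t']` be an interval on which all work stacks except `k₀` are monotone up to `B`.  Call
`[r, s]` a run if on it the height of `k₀` is at least its height at time `r` and no other stack reaches a
new minimum since time `t`.  A run which is long, or in which `k₀` rises much, contains many moments at
each of which the height of `k₀` is minimal up to the last of them.  Two of them have the same state, the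
same top symbols on all stacks, and falling stacks at the same (bounded) distance from their minima; so the
symbols below the tops are not seen between the two moments, and the machine is in a loop, which
continues up to time `t'`.  The heights at time `t` are `O(t)`, so that a potential argument shows that a
loop occurs before time `O(t)`.  So the machine, and the sequence which it prints, is periodic with
preperiod and period `O(t)` up to time `t'`; if more than `A (t + 1)` symbols have been printed at time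
`t'`, this contradicts Liouville's inequality.
-/

namespace Pool.Agent.Results.MP_5bdb63_lc.TwoReversals

variable {K : Type} [DecidableEq K] {Γ : K → Type} {Λ σ : Type}

/-- The configuration of the machine `M` after `t` steps, started on empty stacks (`none` if it has
halted before). -/
def config (M : Λ → Turing.TM2.Stmt Γ Λ σ) (l₀ : Λ) (v₀ : σ) (t : ℕ) : Option (Turing.TM2.Cfg Γ Λ σ) :=
  (fun o : Option (Turing.TM2.Cfg Γ Λ σ) => o.bind (Turing.TM2.step (M := M)))^[t]
    (some ⟨some l₀, v₀, fun _ => []⟩)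

/-- The machine prints the integers `e 0, e 1, …` on the output stack `out`, with coding `enc`: `out` never
loses a symbol, and after `T n` steps its first `n` symbols (counted from the bottom) code
`e 0, …, e (n - 1)`. -/
def Prints (M : Λ → Turing.TM2.Stmt Γ Λ σ) (l₀ : Λ) (v₀ : σ) (out : K) (enc : Γ out → ℤ)
    (e : ℕ → ℤ) (T : ℕ → ℕ) : Prop :=
  (∀ t t' : ℕ, t ≤ t' → ∀ C C' : Turing.TM2.Cfg Γ Λ σ,
    config M l₀ v₀ t = some C → config M l₀ v₀ t' = some C' → C.stk out <:+ C'.stk out) ∧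
  ∀ n : ℕ, ∃ C : Turing.TM2.Cfg Γ Λ σ, config M l₀ v₀ (T n) = some C ∧
    ∀ i < n, Option.map enc ((C.stk out).reverse[i]?) = some (e i)

/-- The height of stack `k` after `t` steps. -/
def height (M : Λ → Turing.TM2.Stmt Γ Λ σ) (l₀ : Λ) (v₀ : σ) (k : K) (t : ℕ) : ℕ :=
  ((config M l₀ v₀ t).map (fun C => (C.stk k).length)).getD 0

/-- On the time interval `[t, t']` the function `h` is nondecreasing up to `B` or nonincreasing up
to `B`. -/
def MonotoneUpTo (B : ℕ) (h : ℕ → ℕ) (t t' : ℕ) : Prop :=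
  (∀ s s', t ≤ s → s ≤ s' → s' ≤ t' → h s ≤ h s' + B) ∨
    (∀ s s', t ≤ s → s ≤ s' → s' ≤ t' → h s' ≤ h s + B)

/-- At step `s` the function `h` reverses its direction: it changes (from time `s` to `s + 1`), and its
last change before had the opposite sign. -/
def Reverses (h : ℕ → ℕ) (s : ℕ) : Prop :=
  ∃ r < s, (∀ i, r < i → i < s → h (i + 1) = h i) ∧
    ((h r < h (r + 1) ∧ h (s + 1) < h s) ∨ (h (r + 1) < h r ∧ h s < h (s + 1)))

/-- **Main theorem.** -/
theorem result (b : ℕ) (hb : 2 ≤ b) (x : ℝ) (hirr : Irrational x)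
    (hx : IsAlgebraic ℚ x ∨ ¬ Liouville x)
    (e : ℕ → ℤ) (he : HasSum (fun i => (e i : ℝ) / (b : ℝ) ^ (i + 1)) x)
    (K : Type) [Fintype K] [DecidableEq K] (Γ : K → Type) [∀ k, Fintype (Γ k)]
    (Λ : Type) [Fintype Λ] (σ : Type) [Fintype σ]
    (M : Λ → Turing.TM2.Stmt Γ Λ σ) (l₀ : Λ) (v₀ : σ) (out : K) (enc : Γ out → ℤ) (T : ℕ → ℕ)
    (h : Prints M l₀ v₀ out enc e T) :
    (∀ B : ℕ, ∃ A : ℕ, ∀ t : ℕ, ∃ k₁ k₂ : K, k₁ ≠ k₂ ∧ k₁ ≠ out ∧ k₂ ≠ out ∧
      ¬ MonotoneUpTo B (height M l₀ v₀ k₁) t (T (A * (t + 1))) ∧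
      ¬ MonotoneUpTo B (height M l₀ v₀ k₂) t (T (A * (t + 1)))) ∧
    ((∃ c : ℕ, ∀ n, T n ≤ c * (n + 1)) →
      ∃ ε : ℝ, 0 < ε ∧ ∀ᶠ n : ℕ in Filter.atTop, ∃ k₁ k₂ : K, k₁ ≠ k₂ ∧ k₁ ≠ out ∧ k₂ ≠ out ∧
        ε * Real.log n ≤ Nat.card {s | s < n ∧ Reverses (height M l₀ v₀ k₁) s} ∧
        ε * Real.log n ≤ Nat.card {s | s < n ∧ Reverses (height M l₀ v₀ k₂) s}) := by
  have hL : ¬ Liouville x := by
    rcases hx with hx | hx
    · intro hl
      have h1 : Transcendental ℤ x := hl.transcendental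
      exact h1 ((IsFractionRing.isAlgebraic_iff ℤ ℚ ℝ).2 hx)
    · exact hx
  have hmain : ∀ B : ℕ, ∃ A : ℕ, ∀ t : ℕ, ∃ k₁ k₂ : K, k₁ ≠ k₂ ∧ k₁ ≠ out ∧ k₂ ≠ out ∧
      ¬ MonotoneUpTo B (height M l₀ v₀ k₁) t (T (A * (t + 1))) ∧
      ¬ MonotoneUpTo B (height M l₀ v₀ k₂) t (T (A * (t + 1))) := by
    intro B
    obtain ⟨A, hA⟩ := Pool.Agent.H50.REV.phase_bound2 M l₀ v₀ (out := out) (enc := enc) (T := T)
      hb hL hirr he h.1 h.2 B
    refine ⟨A, fun t => ?_⟩
    obtain ⟨k₁, a1, -, a3⟩ := hA t out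
    obtain ⟨k₂, b1, b2, b3⟩ := hA t k₁
    exact ⟨k₁, k₂, b2.symm, a1, b1, a3, b3⟩
  refine ⟨hmain, ?_⟩
  rintro ⟨c, hc⟩
  obtain ⟨A, hA⟩ := hmain 0
  have key : ∀ t, ∃ k₁ k₂, k₁ ≠ k₂ ∧ k₁ ≠ out ∧ k₂ ≠ out ∧
      (∃ s, t < s ∧ s < (c * (A + 1)) * (t + 1) ∧ Reverses (height M l₀ v₀ k₁) s) ∧
      (∃ s, t < s ∧ s < (c * (A + 1)) * (t + 1) ∧ Reverses (height M l₀ v₀ k₂) s) := by
    intro t
    obtain ⟨k₁, k₂, hne, a1, a2, m1, m2⟩ := hA t
    have hle : T (A * (t + 1)) ≤ (c * (A + 1)) * (t + 1) := by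
      refine (hc _).trans ?_
      nlinarith [Nat.zero_le (c * t)]
    have hrev : ∀ k, ¬ MonotoneUpTo 0 (height M l₀ v₀ k) t (T (A * (t + 1))) →
        ∃ s, t < s ∧ s < (c * (A + 1)) * (t + 1) ∧ Reverses (height M l₀ v₀ k) s := by
      intro k hk
      unfold MonotoneUpTo at hk
      rw [not_or] at hk
      obtain ⟨s, s1, s2, s3⟩ := Pool.Agent.H50.REV.exists_rvs hk.1 hk.2
      exact ⟨s, s1, by omega, s3⟩
    exact ⟨k₁, k₂, hne, a1, a2, hrev k₁ m1, hrev k₂ m2⟩
  obtain ⟨ε, hε, hn⟩ := Pool.Agent.H50.REV.count_two (W := fun k => k ≠ out)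
    (R := fun k s => Reverses (height M l₀ v₀ k) s) key
  exact ⟨ε, hε, hn⟩

/-- The machine computes the base-`b` digits of `x` in real time, with output stack `out`, coding `enc`
and constant `c`: word for word the two clauses of the frozen statement. -/
def ComputesInRealTime (M : Λ → Turing.TM2.Stmt Γ Λ σ) (l₀ : Λ) (v₀ : σ) (out : K) (enc : Γ out → ℕ)
    (c b : ℕ) (x : ℝ) : Prop :=
  (∀ t t' : ℕ, t ≤ t' → ∀ C C' : Turing.TM2.Cfg Γ Λ σ,
    config M l₀ v₀ t = some C → config M l₀ v₀ t' = some C' → C.stk out <:+ C'.stk out) ∧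
  ∀ n : ℕ, ∃ C : Turing.TM2.Cfg Γ Λ σ, config M l₀ v₀ (c * (n + 1)) = some C ∧
    ∀ i < n, Option.map enc ((C.stk out).reverse[i]?) =
      some (Int.toNat (⌊x * (b : ℝ) ^ (i + 1)⌋ % (b : ℤ)))

/-- the digits of `x` sum up to the fractional part -/
theorem hasSum_digits {b : ℕ} (hb : 2 ≤ b) (x : ℝ) :
    HasSum (fun i => (((Int.toNat (⌊x * (b : ℝ) ^ (i + 1)⌋ % (b : ℤ)) : ℕ) : ℤ) : ℝ) / (b : ℝ) ^ (i + 1))
      (Int.fract x) := by
  have : NeZero b := ⟨by omega⟩
  have h := Real.hasSum_ofDigitsTerm_digits (Int.fract x) (b := b) (by omega)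
    ⟨Int.fract_nonneg x, Int.fract_lt_one x⟩
  have hfun : (fun i => (((Int.toNat (⌊x * (b : ℝ) ^ (i + 1)⌋ % (b : ℤ)) : ℕ) : ℤ) : ℝ) /
      (b : ℝ) ^ (i + 1)) = Real.ofDigitsTerm (Real.digits (Int.fract x) b) := by
    funext i
    have hb0 : (0 : ℤ) < b := by omega
    have h1 : ⌊Int.fract x * (b : ℝ) ^ (i + 1)⌋ = ⌊x * (b : ℝ) ^ (i + 1)⌋ - ⌊x⌋ * (b : ℤ) ^ (i + 1) := by
      rw [← Int.floor_sub_intCast]
      rw [Int.fract]
      push_cast
      rw [sub_mul]
    have h2 : ⌊x * (b : ℝ) ^ (i + 1)⌋ % (b : ℤ) =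
        ((⌊Int.fract x * (b : ℝ) ^ (i + 1)⌋₊ : ℕ) : ℤ) % (b : ℤ) := by
      rw [Int.natCast_floor_eq_floor (mul_nonneg (Int.fract_nonneg x) (by positivity)), h1]
      rw [pow_succ (b : ℤ) i, ← mul_assoc, Int.sub_mul_emod_self_right]
    rw [Real.ofDigitsTerm, Real.digits, Fin.val_ofNat, h2, ← Int.natCast_mod, Int.toNat_natCast,
      div_eq_mul_inv]
    push_cast
    rfl
  rw [hfun]
  exact h

/-- The case of the digits of `x` itself, in real time (the machines of the frozen statement): for all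
large `n` two different work stacks reverse their direction at least `ε log n` times before step `n`. -/
theorem digits (b : ℕ) (hb : 2 ≤ b) (x : ℝ) (halg : IsAlgebraic ℚ x) (hirr : Irrational x)
    (K : Type) [Fintype K] [DecidableEq K] (Γ : K → Type) [∀ k, Fintype (Γ k)]
    (Λ : Type) [Fintype Λ] (σ : Type) [Fintype σ]
    (M : Λ → Turing.TM2.Stmt Γ Λ σ) (l₀ : Λ) (v₀ : σ) (out : K) (enc : Γ out → ℕ) (c : ℕ)
    (h : ComputesInRealTime M l₀ v₀ out enc c b x) :
    ∃ ε : ℝ, 0 < ε ∧ ∀ᶠ n : ℕ in Filter.atTop, ∃ k₁ k₂ : K, k₁ ≠ k₂ ∧ k₁ ≠ out ∧ k₂ ≠ out ∧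
      ε * Real.log n ≤ Nat.card {s | s < n ∧ Reverses (height M l₀ v₀ k₁) s} ∧
      ε * Real.log n ≤ Nat.card {s | s < n ∧ Reverses (height M l₀ v₀ k₂) s} := by
  have hirr' : Irrational (Int.fract x) := by
    rw [Int.fract]
    exact hirr.sub_intCast _
  have halg' : IsAlgebraic ℚ (Int.fract x) := by
    rw [Int.fract]
    exact halg.sub (isAlgebraic_intCast _)
  refine (result b hb (Int.fract x) hirr' (Or.inl halg') _ (hasSum_digits hb x) K Γ Λ σ M l₀ v₀ out
    (fun γ => (enc γ : ℤ)) (fun n => c * (n + 1)) ⟨h.1, fun n => ?_⟩).2 ⟨c, fun n => le_rfl⟩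
  obtain ⟨C, hC, hd⟩ := h.2 n
  refine ⟨C, hC, fun i hi => ?_⟩
  have := hd i hi
  rcases hg : (C.stk out).reverse[i]? with _ | γ
  · rw [hg] at this; simp at this
  · rw [hg] at this
    simp only [Option.map_some, Option.some.injEq] at this
    simp [this]

end Pool.Agent.Results.MP_5bdb63_lc.TwoReversals
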